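import Pool.Agent.Y183.LS.N
set_option autoImplicit false

/-! Sums over cells of frequencies: the local form of the estimate of exponential sums on the
unit cube. -/

namespace Pool.Agent.Q89.AS

open MeasureTheory Set Complex
open scoped ENNReal NNReal
open Pool.Agent.Y183.LS

variable {m : ℕ}

/-- the index of the cell of the frequency `κ`, seen from `x` -/
noncomputable def cell (t : ℝ) (κ x : Fin m → ℝ) : Fin m → ℤ := fun i => ⌊κ i / (2 * t) - x i⌋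

/-- one weight -/
noncomputable def w1c (a : ℝ) (j : ℤ) : ℝ≥0∞ := ENNReal.ofReal ((1 + |(j : ℝ)|) ^ (-(2 * a)))

/-- the weight of a cell -/
noncomputable def Wc (a : ℝ) (n : Fin m → ℤ) : ℝ≥0∞ := ∏ i, w1c a (n i)

lemma w1c_pos (a : ℝ) (j : ℤ) : w1c a j ≠ 0 := by
  unfold w1c
  rw [Ne, ENNReal.ofReal_eq_zero, not_le]
  positivity

lemma w1c_fin (a : ℝ) (j : ℤ) : w1c a j ≠ ∞ := ENNReal.ofReal_ne_top

lemma Wc_pos (a : ℝ) (n : Fin m → ℤ) : Wc a n ≠ 0 :=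
  Finset.prod_ne_zero_iff.mpr fun i _ => w1c_pos a _

lemma Wc_fin (a : ℝ) (n : Fin m → ℤ) : Wc a n ≠ ∞ :=
  ENNReal.prod_ne_top fun i _ => w1c_fin a _

lemma w1c_sum (a : ℝ) (ha : 1 < 2 * a) : ∃ C : ℝ≥0, ∀ s : Finset ℤ, ∑ j ∈ s, w1c a j ≤ C := by
  have h1 : Summable fun j : ℤ => |(j : ℝ)| ^ (-(2 * a)) := Real.summable_abs_int_rpow ha
  have h2 : Summable fun j : ℤ => (if j = 0 then (1 : ℝ) else 0) :=
    (hasSum_ite_eq (0 : ℤ) (1 : ℝ)).summable
  have h3 := h1.add h2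
  have h4 : Summable fun j : ℤ => (1 + |(j : ℝ)|) ^ (-(2 * a)) := by
    refine Summable.of_nonneg_of_le (fun j => by positivity) (fun j => ?_) h3
    by_cases hj : j = 0
    · rw [hj, if_pos rfl]
      simp only [Int.cast_zero, abs_zero, add_zero, Real.one_rpow]
      have : (0 : ℝ) ≤ 0 ^ (-(2 * a)) := Real.rpow_nonneg le_rfl _
      linarith
    · rw [if_neg hj, add_zero]
      have h5 : 0 < |(j : ℝ)| := abs_pos.mpr (by exact_mod_cast hj)
      exact Real.rpow_le_rpow_of_nonpos h5 (by linarith) (by linarith)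
  refine ⟨(∑' j : ℤ, (1 + |(j : ℝ)|) ^ (-(2 * a))).toNNReal, fun s => ?_⟩
  unfold w1c
  rw [← ENNReal.ofReal_sum_of_nonneg fun j _ => by positivity]
  exact ENNReal.ofReal_le_ofReal (h4.sum_le_tsum s fun j _ => by positivity)

lemma Wc_sum (a : ℝ) (ha : 1 < 2 * a) (m : ℕ) : ∃ C : ℝ≥0, ∀ s : Finset (Fin m → ℤ),
    ∑ n ∈ s, Wc a n ≤ C := by
  classical
  obtain ⟨C, hC⟩ := w1c_sum a ha
  refine ⟨C ^ m, fun s => ?_⟩
  set u : Finset ℤ := s.biUnion fun n => Finset.univ.image n with hu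
  have h1 : s ⊆ Fintype.piFinset fun _ : Fin m => u := by
    intro n hn
    rw [Fintype.mem_piFinset]
    intro i
    rw [hu, Finset.mem_biUnion]
    exact ⟨n, hn, Finset.mem_image_of_mem _ (Finset.mem_univ i)⟩
  calc ∑ n ∈ s, Wc a n ≤ ∑ n ∈ Fintype.piFinset (fun _ : Fin m => u), Wc a n :=
        Finset.sum_le_sum_of_subset h1
    _ = ∏ _i : Fin m, ∑ j ∈ u, w1c a j := (Finset.prod_univ_sum _ _).symm
    _ ≤ ∏ _i : Fin m, (C : ℝ≥0∞) := Finset.prod_le_prod' fun _ _ => hC u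
    _ = _ := by
        rw [Finset.prod_const, Finset.card_univ, Fintype.card_fin]
        push_cast
        rfl

/-- the frequencies in the cell with corner `a` -/
noncomputable def inCell {ι : Type*} (F : Finset ι) (κ : ι → Fin m → ℝ) (t : ℝ) (a : Fin m → ℝ) :
    Finset ι := by
  classical
  exact F.filter fun k => ∀ i, a i ≤ κ k i / (2 * t) ∧ κ k i / (2 * t) < a i + 1

lemma lint_eLp {α : Type*} [MeasurableSpace α] (μ : Measure α) (q : ℝ) (hq : 0 < q) (f : α → ℂ) :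
    ∫⁻ z, ‖f z‖ₑ ^ q ∂μ = eLpNorm f (ENNReal.ofReal q) μ ^ q := by
  rw [eLpNorm_eq_lintegral_rpow_enorm_toReal (by simpa using hq) ENNReal.ofReal_ne_top,
    ENNReal.toReal_ofReal hq.le, ← ENNReal.rpow_mul, one_div_mul_cancel hq.ne', ENNReal.rpow_one]

/-- **local sums** -/
lemma local_sum {ι : Type*} (F : Finset ι) (κ : ι → Fin m → ℝ) (q : ℝ) (hq : 2 ≤ q)
    (KK : ℝ≥0∞) (t : ℝ) (a : ℝ) (C : ℝ≥0) (hC : ∀ s : Finset (Fin m → ℤ), ∑ n ∈ s, Wc a n ≤ C)
    (hK : ∀ (y : Fin m → ℝ) (c : ι → ℂ), ∫⁻ z in QQ m, ‖tri (inCell F κ t y) κ c z‖ₑ ^ q ≤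
      KK * (∑ k ∈ inCell F κ t y, ‖c k‖ₑ ^ 2) ^ (q / 2))
    (x : Fin m → ℝ) (β : ι → ℂ) :
    ∫⁻ z in QQ m, ‖tri F κ β z‖ₑ ^ q ≤
      KK * (C * ∑ k ∈ F, ‖β k‖ₑ ^ 2 * (Wc a (cell t (κ k) x))⁻¹) ^ (q / 2) := by
  classical
  have hq0 : 0 < q := by linarith
  set N : Finset (Fin m → ℤ) := F.image fun k => cell t (κ k) x with hN
  set G : (Fin m → ℤ) → Finset ι := fun n => F.filter fun k => cell t (κ k) x = n with hG
  have hGc : ∀ n, G n = inCell F κ t (fun i => x i + n i) := by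
    intro n
    rw [hG]
    unfold inCell
    simp only
    apply Finset.filter_congr
    intro k _
    unfold cell
    rw [funext_iff]
    apply forall_congr'
    intro i
    rw [Int.floor_eq_iff]
    constructor
    · rintro ⟨h1, h2⟩
      constructor <;> linarith
    · rintro ⟨h1, h2⟩
      constructor <;> linarith
  have h1 : tri F κ β = ∑ n ∈ N, tri (G n) κ β := by
    ext z
    rw [Finset.sum_apply]
    unfold tri
    exact (Finset.sum_fiberwise_of_maps_to (fun k hk => Finset.mem_image_of_mem _ hk) _).symm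
  set X : (Fin m → ℤ) → ℝ≥0∞ := fun n => (∑ k ∈ G n, ‖β k‖ₑ ^ 2) ^ (1 / 2 : ℝ) with hX
  have h2 : eLpNorm (tri F κ β) (ENNReal.ofReal q) (volume.restrict (QQ m)) ≤
      KK ^ (1 / q) * ∑ n ∈ N, X n := by
    rw [h1]
    refine (eLpNorm_sum_le (fun n _ => (tri_cont _ _ _).aestronglyMeasurable) ?_).trans ?_
    · rw [← ENNReal.ofReal_one]
      exact ENNReal.ofReal_le_ofReal (by linarith)
    · rw [Finset.mul_sum]
      apply Finset.sum_le_sum
      intro n _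
      have h3 := hK (fun i => x i + n i) β
      rw [← hGc, lint_eLp _ q hq0] at h3
      have h4 := ENNReal.rpow_le_rpow h3 (by positivity : 0 ≤ 1 / q)
      rw [← ENNReal.rpow_mul, mul_one_div_cancel hq0.ne', ENNReal.rpow_one,
        ENNReal.mul_rpow_of_nonneg _ _ (by positivity), ← ENNReal.rpow_mul] at h4
      refine h4.trans (le_of_eq ?_)
      congr 2
      field_simp
  rw [lint_eLp _ q hq0]
  have h5 : (∑ n ∈ N, X n) ^ (2 : ℝ) ≤ C * ∑ k ∈ F, ‖β k‖ₑ ^ 2 * (Wc a (cell t (κ k) x))⁻¹ := by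
    have h6 := convex_sum N (Wc a) (fun n => X n * (Wc a n)⁻¹) 2 (by norm_num)
      (fun n _ => Wc_fin a n)
    have h7 : ∀ n, Wc a n * (X n * (Wc a n)⁻¹) = X n := by
      intro n
      rw [mul_comm (X n), ← mul_assoc, ENNReal.mul_inv_cancel (Wc_pos a n) (Wc_fin a n), one_mul]
    have h8 : ∀ n, Wc a n * (X n * (Wc a n)⁻¹) ^ (2 : ℝ) =
        ∑ k ∈ G n, ‖β k‖ₑ ^ 2 * (Wc a (cell t (κ k) x))⁻¹ := by
      intro n
      have h9 : X n ^ (2 : ℝ) = ∑ k ∈ G n, ‖β k‖ₑ ^ 2 := by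
        rw [hX]
        simp only
        rw [← ENNReal.rpow_mul]
        norm_num
      rw [ENNReal.rpow_ofNat, sq, ← mul_assoc, h7, ← mul_assoc, ← sq, ← ENNReal.rpow_ofNat, h9,
        Finset.sum_mul]
      apply Finset.sum_congr rfl
      intro k hk
      rw [(Finset.mem_filter.mp hk).2]
    simp only [h7, h8] at h6
    refine h6.trans ?_
    have h10 : ((2 : ℝ) - 1) = 1 := by norm_num
    rw [h10, ENNReal.rpow_one]
    have h11 : ∑ n ∈ N, ∑ k ∈ G n, ‖β k‖ₑ ^ 2 * (Wc a (cell t (κ k) x))⁻¹ =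
        ∑ k ∈ F, ‖β k‖ₑ ^ 2 * (Wc a (cell t (κ k) x))⁻¹ :=
      Finset.sum_fiberwise_of_maps_to (fun k hk => Finset.mem_image_of_mem _ hk) _
    rw [h11]
    gcongr
    exact hC N
  calc eLpNorm (tri F κ β) (ENNReal.ofReal q) (volume.restrict (QQ m)) ^ q ≤
      (KK ^ (1 / q) * ∑ n ∈ N, X n) ^ q := ENNReal.rpow_le_rpow h2 hq0.le
    _ = KK * ((∑ n ∈ N, X n) ^ (2 : ℝ)) ^ (q / 2) := by
        rw [ENNReal.mul_rpow_of_nonneg _ _ hq0.le, ← ENNReal.rpow_mul, ← ENNReal.rpow_mul,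
          one_div_mul_cancel hq0.ne', ENNReal.rpow_one]
        congr 2
        ring
    _ ≤ _ := by gcongr

end Pool.Agent.Q89.AS
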