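import Pool.Agent.Q89.AS.A
set_option autoImplicit false

/-! The estimate of finite sums with the window, under a local hypothesis on the frequencies. -/

namespace Pool.Agent.Q89.AS

open MeasureTheory Set Complex
open scoped ENNReal NNReal
open Pool.Agent.Y183.LS
open Pool.Agent.W771.MD (qe)

variable {m : ℕ}

/-- the weighted power of `eta` -/
noncomputable def gg (q a t s : ℝ) : ℝ≥0∞ :=
  ‖eta t s‖ₑ ^ q * ENNReal.ofReal ((2 * (1 + |s|)) ^ (a * q))

lemma gg_meas (q a t : ℝ) : Measurable (gg q a t) := by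
  unfold gg
  apply Measurable.mul
  · exact (eta_cont t).measurable.enorm.pow_const _
  · apply Measurable.ennreal_ofReal
    exact ((measurable_const.add continuous_abs.measurable).const_mul 2).pow_const _

/-- the constant of the next lemma -/
noncomputable def cG (q a : ℝ) : ℝ≥0∞ :=
  ∫⁻ z : ℝ, ENNReal.ofReal (12 ^ q * 2 ^ (a * q) * (1 + ‖z‖) ^ (-(q - a * q)))

lemma cG_ne_top (q a : ℝ) (h : 1 < q - a * q) : cG q a ≠ ∞ := by
  unfold cG
  have h1 : Integrable (fun z : ℝ => (1 + ‖z‖) ^ (-(q - a * q))) := by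
    apply integrable_one_add_norm
    simpa using h
  exact (h1.const_mul _).lintegral_lt_top.ne

lemma gg_lint (q a t : ℝ) (hq : 0 < q) (ht : 1 ≤ |t|) :
    ∫⁻ z, gg q a t z ≤ ENNReal.ofReal (|t| ^ (-(q / 2))) * cG q a := by
  have htp : 0 < |t| := by linarith
  unfold cG gg
  rw [← lintegral_const_mul' _ _ ENNReal.ofReal_ne_top]
  apply lintegral_mono
  intro z
  simp only
  rw [← ofReal_norm, ENNReal.ofReal_rpow_of_nonneg (norm_nonneg _) (by linarith),
    ← ENNReal.ofReal_mul (by positivity), ← ENNReal.ofReal_mul (by positivity)]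
  apply ENNReal.ofReal_le_ofReal
  have h0 : 0 < 1 + ‖z‖ := by positivity
  have h0' : 0 < 1 + |z| := by positivity
  calc ‖eta t z‖ ^ q * (2 * (1 + |z|)) ^ (a * q) ≤
      (12 * |t| ^ (-(1 / 2) : ℝ) * (1 + ‖z‖) ^ (-(1 : ℝ))) ^ q * (2 * (1 + |z|)) ^ (a * q) := by
        gcongr
        exact eta_bound t z ht
    _ = _ := by
        rw [Real.mul_rpow (by positivity) (by positivity), Real.mul_rpow (by positivity)
          (by positivity), ← Real.rpow_mul htp.le, ← Real.rpow_mul h0.le,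
          Real.mul_rpow (by norm_num) h0'.le, Real.norm_eq_abs]
        have e1 : -(1 / 2) * q = -(q / 2) := by ring
        have e3 : (1 + |z|) ^ (-(q - a * q)) = (1 + |z|) ^ (-(1 : ℝ) * q) * (1 + |z|) ^ (a * q) := by
          rw [← Real.rpow_add h0']
          congr 1
          ring
        rw [e1, e3]
        ring

lemma Wc_inv (q a t : ℝ) (ha : 0 ≤ a) (hq : 0 ≤ q) (κ x : Fin m → ℝ) :
    ((Wc a (cell t κ x))⁻¹) ^ (q / 2) ≤
      ∏ i, ENNReal.ofReal ((2 * (1 + |x i - κ i / (2 * t)|)) ^ (a * q)) := by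
  unfold Wc
  rw [ENNReal.prod_inv_distrib, ← ENNReal.prod_rpow_of_nonneg (by positivity)]
  · apply Finset.prod_le_prod' 
    intro i _
    unfold w1c
    rw [← ENNReal.ofReal_inv_of_pos (by positivity), ENNReal.ofReal_rpow_of_nonneg (by positivity)
      (by positivity)]
    apply ENNReal.ofReal_le_ofReal
    rw [Real.rpow_neg (by positivity), inv_inv, ← Real.rpow_mul (by positivity)]
    have e1 : 2 * a * (q / 2) = a * q := by ring
    rw [e1]
    apply Real.rpow_le_rpow (by positivity) _ (by positivity)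
    unfold cell
    have h1 := Int.floor_le (κ i / (2 * t) - x i)
    have h2 := Int.lt_floor_add_one (κ i / (2 * t) - x i)
    have h3 : |x i - κ i / (2 * t)| = |κ i / (2 * t) - x i| := abs_sub_comm _ _
    rw [h3]
    have h4 : |((⌊κ i / (2 * t) - x i⌋ : ℤ) : ℝ)| ≤ |κ i / (2 * t) - x i| + 1 := by
      rw [abs_le]
      have h5 := neg_abs_le (κ i / (2 * t) - x i)
      have h6 := le_abs_self (κ i / (2 * t) - x i)
      constructor <;> linarith
    have h5 := abs_nonneg (κ i / (2 * t) - x i)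
    linarith
  · intro i _ j _ _
    exact Or.inl (w1c_pos _ _)

/-- **the local estimate** of finite sums, in the variable `z` -/
lemma win_loc {ι : Type*} (F : Finset ι) (κ : ι → Fin m → ℝ) (q : ℝ) (hq : 2 ≤ q) (KK : ℝ≥0∞)
    (a : ℝ) (ha : 0 ≤ a) (C : ℝ≥0) (hC : ∀ s : Finset (Fin m → ℤ), ∑ n ∈ s, Wc a n ≤ C)
    (t : ℝ) (ht : t ≠ 0)
    (hK : ∀ (y : Fin m → ℝ) (c : ι → ℂ), ∫⁻ z in QQ m, ‖tri (inCell F κ t y) κ c z‖ₑ ^ q ≤
      KK * (∑ k ∈ inCell F κ t y, ‖c k‖ₑ ^ 2) ^ (q / 2))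
    (c : ι → ℂ) :
    ∫⁻ z : Fin m → ℝ, ‖∫ v, Wm v * (tri F κ c v * em (fun i => -(2 * t * z i)) t v)‖ₑ ^ q ≤
      KK * (C : ℝ≥0∞) ^ (q / 2) * (∑ k ∈ F, ‖c k‖ₑ ^ 2) ^ (q / 2) * (∫⁻ s, gg q a t s) ^ m := by
  have hq0 : 0 < q := by linarith
  set b : ι → ℂ := fun k => c k * ec (-(sq2 (κ k) / (4 * t))) with hb
  have hbn : ∀ k, ‖b k‖ₑ = ‖c k‖ₑ := by
    intro k
    rw [hb]
    simp only
    rw [enorm_mul, ec_enorm, mul_one]
  set G : (Fin m → ℝ) → (Fin m → ℝ) → ℂ := fun z x =>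
    ∑ k ∈ F, b k * ec (dt (κ k) z) * He t (κ k) x with hG
  have hGc : Continuous (fun w : (Fin m → ℝ) × (Fin m → ℝ) => G w.1 w.2) := by
    rw [hG]
    apply continuous_finsetSum
    intro k _
    apply Continuous.mul
    · exact continuous_const.mul (ec_cont.comp ((dt_cont _).comp continuous_fst))
    · exact (He_cont t _).comp continuous_snd
  have hGm : Measurable (fun w : (Fin m → ℝ) × (Fin m → ℝ) => ‖G w.1 w.2‖ₑ ^ q) :=
    hGc.measurable.enorm.pow_const _
  -- pointwise bound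
  have h1 : ∀ z : Fin m → ℝ, ‖∫ v, Wm v * (tri F κ c v * em (fun i => -(2 * t * z i)) t v)‖ₑ ^ q ≤
      ∫⁻ x, (QQ m).indicator (fun _ => (1 : ℝ≥0∞)) (z - x) * ‖G z x‖ₑ ^ q := by
    intro z
    rw [win_rep F κ c t ht z, enorm_mul, ec_enorm, one_mul]
    have h2 : ‖∫ x, (∏ i, i1 (z i - x i)) * G z x‖ₑ ≤
        ∫⁻ x in {x | z - x ∈ QQ m}, ‖G z x‖ₑ := by
      refine (enorm_integral_le_lintegral_enorm _).trans (le_of_eq ?_)
      have hs : MeasurableSet {x : Fin m → ℝ | z - x ∈ QQ m} :=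
        (measurable_const.sub measurable_id) measurableSet_Icc
      rw [← lintegral_indicator hs]
      congr 1
      ext x
      rw [enorm_mul, enorm_ind]
      by_cases hx : z - x ∈ QQ m
      · rw [indicator_of_mem hx, indicator_of_mem (show x ∈ {x : Fin m → ℝ | z - x ∈ QQ m} from hx),
          one_mul]
      · rw [indicator_of_notMem hx,
          indicator_of_notMem (show x ∉ {x : Fin m → ℝ | z - x ∈ QQ m} from hx), zero_mul]
    have hs : MeasurableSet {x : Fin m → ℝ | z - x ∈ QQ m} :=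
      (measurable_const.sub measurable_id) measurableSet_Icc
    have hvol : volume {x : Fin m → ℝ | z - x ∈ QQ m} = 1 := by
      have h3 : {x : Fin m → ℝ | z - x ∈ QQ m} = Icc (fun i => z i - 1 / 2) (fun i => z i + 1 / 2) := by
        ext x
        simp only [mem_ofPred_eq, mem_Icc, Pi.le_def, Pi.sub_apply]
        constructor
        · rintro ⟨h1, h2⟩
          exact ⟨fun i => by linarith [h2 i], fun i => by linarith [h1 i]⟩
        · rintro ⟨h1, h2⟩
          exact ⟨fun i => by linarith [h2 i], fun i => by linarith [h1 i]⟩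
      rw [h3, Real.volume_Icc_pi]
      have h4 : ∀ i : Fin m, ENNReal.ofReal (z i + 1 / 2 - (z i - 1 / 2)) = 1 := by
        intro i
        rw [show z i + 1 / 2 - (z i - 1 / 2) = 1 by ring, ENNReal.ofReal_one]
      simp only [h4, Finset.prod_const_one]
    have hGz : Measurable (fun x => ‖G z x‖ₑ) := by
      have h5 : Measurable (fun x : Fin m → ℝ => (z, x)) := measurable_const.prodMk measurable_id
      exact (hGc.measurable.comp h5).enorm
    have h6 := Pool.Agent.W771.MD.jens (volume.restrict {x : Fin m → ℝ | z - x ∈ QQ m})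
      (fun x => ‖G z x‖ₑ) hGz q (by linarith)
    rw [Measure.restrict_apply_univ, hvol, ENNReal.one_rpow, one_mul] at h6
    refine (ENNReal.rpow_le_rpow h2 hq0.le).trans (h6.trans (le_of_eq ?_))
    rw [← lintegral_indicator hs]
    congr 1
    ext x
    by_cases hx : z - x ∈ QQ m
    · rw [indicator_of_mem hx, indicator_of_mem (show x ∈ {x : Fin m → ℝ | z - x ∈ QQ m} from hx),
        one_mul]
    · rw [indicator_of_notMem hx,
        indicator_of_notMem (show x ∉ {x : Fin m → ℝ | z - x ∈ QQ m} from hx), zero_mul]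
  refine (lintegral_mono h1).trans ?_
  -- exchange
  have hmeas : Measurable (Function.uncurry fun z x : Fin m → ℝ =>
      (QQ m).indicator (fun _ => (1 : ℝ≥0∞)) (z - x) * ‖G z x‖ₑ ^ q) := by
    apply Measurable.mul _ hGm
    have h5 : Measurable (fun w : (Fin m → ℝ) × (Fin m → ℝ) => w.1 - w.2) :=
      measurable_fst.sub measurable_snd
    exact (measurable_const.indicator measurableSet_Icc).comp h5
  rw [lintegral_lintegral_swap hmeas.aemeasurable]
  -- the inner integral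
  have h2 : ∀ x : Fin m → ℝ, ∫⁻ z, (QQ m).indicator (fun _ => (1 : ℝ≥0∞)) (z - x) * ‖G z x‖ₑ ^ q ≤
      KK * (C * ∑ k ∈ F, ‖c k‖ₑ ^ 2 *
        (‖He t (κ k) x‖ₑ ^ 2 * (Wc a (cell t (κ k) x))⁻¹)) ^ (q / 2) := by
    intro x
    rw [← lintegral_add_right_eq_self _ x]
    simp only [add_sub_cancel_right]
    have h3 : ∀ z, G (z + x) x = tri F κ (fun k => b k * ec (dt (κ k) x) * He t (κ k) x) z := by
      intro z
      rw [hG]
      unfold tri
      simp only
      apply Finset.sum_congr rfl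
      intro k _
      rw [dt_add, ec_add]
      ring
    have h4 : ∫⁻ z, (QQ m).indicator (fun _ => (1 : ℝ≥0∞)) z * ‖G (z + x) x‖ₑ ^ q =
        ∫⁻ z in QQ m, ‖tri F κ (fun k => b k * ec (dt (κ k) x) * He t (κ k) x) z‖ₑ ^ q := by
      rw [← lintegral_indicator measurableSet_Icc]
      congr 1
      ext z
      rw [h3]
      by_cases hz : z ∈ QQ m
      · rw [indicator_of_mem hz, indicator_of_mem hz, one_mul]
      · rw [indicator_of_notMem hz, indicator_of_notMem hz, zero_mul]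
    rw [h4]
    refine (local_sum F κ q hq KK t a C hC hK x _).trans (le_of_eq ?_)
    congr 3
    apply Finset.sum_congr rfl
    intro k _
    rw [enorm_mul, enorm_mul, ec_enorm, mul_one, hbn, mul_pow, mul_assoc]
  refine (lintegral_mono h2).trans ?_
  -- convexity
  set S : ℝ≥0∞ := ∑ k ∈ F, ‖c k‖ₑ ^ 2 with hS
  have hSt : S ≠ ∞ := (ENNReal.sum_lt_top.mpr fun i _ => ENNReal.pow_lt_top enorm_lt_top).ne
  set P : ι → (Fin m → ℝ) → ℝ≥0∞ := fun k x => ∏ i, gg q a t (x i - κ k i / (2 * t)) with hP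
  have h3 : ∀ x : Fin m → ℝ, KK * (C * ∑ k ∈ F, ‖c k‖ₑ ^ 2 *
        (‖He t (κ k) x‖ₑ ^ 2 * (Wc a (cell t (κ k) x))⁻¹)) ^ (q / 2) ≤
      KK * ((C : ℝ≥0∞) ^ (q / 2) * (S ^ (q / 2 - 1) * ∑ k ∈ F, ‖c k‖ₑ ^ 2 * P k x)) := by
    intro x
    rw [ENNReal.mul_rpow_of_nonneg _ _ (by positivity)]
    gcongr
    have := convex_sum F (fun k => ‖c k‖ₑ ^ 2)
      (fun k => ‖He t (κ k) x‖ₑ ^ 2 * (Wc a (cell t (κ k) x))⁻¹) (q / 2) (by linarith)
      (fun i _ => (ENNReal.pow_lt_top enorm_lt_top).ne)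
    refine this.trans ?_
    gcongr with k _
    rw [ENNReal.mul_rpow_of_nonneg _ _ (by positivity), hP]
    simp only
    unfold gg
    rw [Finset.prod_mul_distrib]
    have h5 : (‖He t (κ k) x‖ₑ ^ 2) ^ (q / 2) = ∏ i, ‖eta t (x i - κ k i / (2 * t))‖ₑ ^ q := by
      rw [← ENNReal.rpow_natCast, ← ENNReal.rpow_mul]
      have e : ((2 : ℕ) : ℝ) * (q / 2) = q := by push_cast; ring
      rw [e]
      unfold He
      rw [enorm_prd, ENNReal.prod_rpow_of_nonneg hq0.le]
    rw [h5]
    gcongr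
    exact Wc_inv q a t ha hq0.le (κ k) x
  refine (lintegral_mono h3).trans ?_
  have hPm : ∀ k, Measurable (P k) := by
    intro k
    rw [hP]
    simp only
    exact Finset.measurable_fun_prod _ fun i _ =>
      (gg_meas q a t).comp ((measurable_pi_apply i).sub_const _)
  have hHm : ∀ k, Measurable (fun x => ‖c k‖ₑ ^ 2 * P k x) := fun k => (hPm k).const_mul _
  have hsm : Measurable (fun x => ∑ k ∈ F, ‖c k‖ₑ ^ 2 * P k x) :=
    Finset.measurable_fun_sum _ fun k _ => hHm k
  rw [lintegral_const_mul _ ((hsm.const_mul _).const_mul _), lintegral_const_mul _ (hsm.const_mul _),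
    lintegral_const_mul _ hsm, lintegral_finsetSum _ fun k _ => hHm k]
  have hPi : ∀ k, ∫⁻ x, P k x = (∫⁻ s, gg q a t s) ^ m := by
    intro k
    rw [hP]
    simp only
    rw [lint_prod m (fun i s => gg q a t (s - κ k i / (2 * t)))]
    · have h2 : ∀ i, ∫⁻ s, gg q a t (s - κ k i / (2 * t)) = ∫⁻ s, gg q a t s := by
        intro i
        exact lintegral_sub_right_eq_self (gg q a t) _
      simp only [h2, Finset.prod_const, Finset.card_univ, Fintype.card_fin]
    · intro i
      exact (gg_meas q a t).comp (measurable_id.sub_const _)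
  have h4 : ∑ k ∈ F, ∫⁻ x, ‖c k‖ₑ ^ 2 * P k x = S * (∫⁻ s, gg q a t s) ^ m := by
    rw [hS, Finset.sum_mul]
    apply Finset.sum_congr rfl
    intro k _
    rw [lintegral_const_mul _ (hPm k), hPi]
  rw [h4]
  have h5 : S ^ (q / 2 - 1) * S ≤ S ^ (q / 2) := by
    by_cases h0 : S = 0
    · rw [h0, mul_zero]
      exact zero_le
    · nth_rewrite 2 [← ENNReal.rpow_one S]
      rw [← ENNReal.rpow_add _ _ h0 hSt]
      exact le_of_eq (by congr 1; ring)
  calc KK * ((C : ℝ≥0∞) ^ (q / 2) * (S ^ (q / 2 - 1) * (S * (∫⁻ s, gg q a t s) ^ m))) =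
      KK * (C : ℝ≥0∞) ^ (q / 2) * (S ^ (q / 2 - 1) * S) * (∫⁻ s, gg q a t s) ^ m := by ring
    _ ≤ _ := by gcongr

end Pool.Agent.Q89.AS
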