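import Pool.Agent.Q89.AS.B
set_option autoImplicit false

/-! Large times. -/

namespace Pool.Agent.Q89.AS

open MeasureTheory Set Complex Filter Topology
open scoped ENNReal NNReal
open Pool.Agent.Y183.LS

variable {m : ℕ}

/-- **finite sums**, large time, local hypothesis -/
lemma fin_loc (m : ℕ) (q : ℝ) (hq : 2 < q) : ∃ C : ℝ≥0, ∀ (ι : Type) (F : Finset ι)
    (κ : ι → Fin m → ℝ) (KK : ℝ≥0∞) (t : ℝ), 1 ≤ |t| →
    (∀ (y : Fin m → ℝ) (c : ι → ℂ), ∫⁻ z in QQ m, ‖tri (inCell F κ t y) κ c z‖ₑ ^ q ≤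
      KK * (∑ k ∈ inCell F κ t y, ‖c k‖ₑ ^ 2) ^ (q / 2)) →
    ∀ (c : ι → ℂ),
    ∫⁻ y, ‖∫ v in BA 1 m, tri F κ c v * em y t v‖ₑ ^ q ≤
      C * ENNReal.ofReal (|t| ^ (-(q / 2 - 1))) ^ m * (KK * (∑ k ∈ F, ‖c k‖ₑ ^ 2) ^ (q / 2)) := by
  obtain ⟨C1, hC1⟩ := riesz_cube q (by linarith) m
  set a : ℝ := 3 / 4 - 1 / (2 * q) with ha
  have hq0 : 0 < q := by linarith
  have hqi : 1 / (2 * q) < 1 / 4 := by
    apply one_div_lt_one_div_of_lt <;> linarith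
  have ha1 : 1 < 2 * a := by
    rw [ha]
    linarith
  have ha2 : 1 < q - a * q := by
    have : a * q = 3 / 4 * q - 1 / 2 := by
      rw [ha]
      field_simp
    rw [this]
    linarith
  have hcE := cG_ne_top q a ha2
  obtain ⟨C2, hC2⟩ := Wc_sum a ha1 m
  refine ⟨C1 * C2 ^ (q / 2) * (2 * (cG q a).toNNReal) ^ m, ?_⟩
  intro ι F κ KK t ht hK c
  have htp : 0 < |t| := by linarith
  have ht0 : t ≠ 0 := abs_pos.mp htp
  have h1 := hC1 _ (Hf_good F κ c t)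
  simp only [cube_Hf, FT_Hf] at h1
  have hm : Measurable (fun y => ‖∫ v, Wm v * (tri F κ c v * em y t v)‖ₑ ^ q) := by
    have := FT_meas (Hf_good F κ c t).meas
    simp only [← FT_Hf]
    exact this.enorm.pow_const q
  have h2 := lint_smul (-(2 * t)) (by simpa using ht0) _ hm
  have h3 : ∀ z : Fin m → ℝ, (-(2 * t)) • z = fun i => -(2 * t * z i) := by
    intro z
    ext i
    rw [Pi.smul_apply, smul_eq_mul]
    ring
  simp only [h3] at h2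
  have h4 := win_loc F κ q hq.le KK a (by linarith) C2 hC2 t ht0 hK c
  have h5 := gg_lint q a t hq0 ht
  rw [← h2] at h1
  refine h1.trans ?_
  have habs : |-(2 * t)| = 2 * |t| := by
    rw [abs_neg, abs_mul, abs_two]
  rw [habs]
  have e1 : ENNReal.ofReal ((2 * |t|) ^ m) * (ENNReal.ofReal (|t| ^ (-(q / 2))) * cG q a) ^ m =
      (2 * cG q a) ^ m * ENNReal.ofReal (|t| ^ (-(q / 2 - 1))) ^ m := by
    rw [ENNReal.ofReal_pow (by positivity), ← mul_pow, ← mul_pow]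
    congr 1
    rw [ENNReal.ofReal_mul (by norm_num)]
    have e2 : ENNReal.ofReal |t| * ENNReal.ofReal (|t| ^ (-(q / 2))) =
        ENNReal.ofReal (|t| ^ (-(q / 2 - 1))) := by
      rw [← ENNReal.ofReal_mul (by positivity)]
      congr 1
      nth_rewrite 1 [← Real.rpow_one |t|]
      rw [← Real.rpow_add htp]
      congr 1
      ring
    rw [← e2]
    simp only [ENNReal.ofReal_ofNat]
    ring
  push_cast
  rw [ENNReal.coe_toNNReal hcE, ENNReal.coe_rpow_of_nonneg _ (by positivity : 0 ≤ q / 2)]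
  calc (C1 : ℝ≥0∞) * (ENNReal.ofReal ((2 * |t|) ^ m) * ∫⁻ z : Fin m → ℝ,
        ‖∫ v, Wm v * (tri F κ c v * em (fun i => -(2 * t * z i)) t v)‖ₑ ^ q) ≤
      C1 * (ENNReal.ofReal ((2 * |t|) ^ m) * (KK * (C2 : ℝ≥0∞) ^ (q / 2) *
        (∑ k ∈ F, ‖c k‖ₑ ^ 2) ^ (q / 2) *
        (ENNReal.ofReal (|t| ^ (-(q / 2))) * cG q a) ^ m)) := by
        gcongr
        exact h4.trans (by gcongr)
    _ = C1 * (C2 : ℝ≥0∞) ^ (q / 2) * (ENNReal.ofReal ((2 * |t|) ^ m) *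
        (ENNReal.ofReal (|t| ^ (-(q / 2))) * cG q a) ^ m) *
        (KK * (∑ k ∈ F, ‖c k‖ₑ ^ 2) ^ (q / 2)) := by ring
    _ = _ := by
        rw [e1]
        ring

/-- the part of a set of integer points in a cell -/
def cellSet (L : Set (Fin m → ℤ)) (t : ℝ) (y : Fin m → ℝ) : Set (Fin m → ℤ) :=
  {k | k ∈ L ∧ ∀ i, y i ≤ izA 1 k i / (2 * t) ∧ izA 1 k i / (2 * t) < y i + 1}

/-- **fixed large time** -/
lemma slice_loc (m : ℕ) (q : ℝ) (hq : 2 < q) : ∃ C : ℝ≥0, ∀ (L : Set (Fin m → ℤ)) (t : ℝ)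
    (K : ℝ≥0), 1 ≤ |t| → (∀ y : Fin m → ℝ, LQ q K (cellSet L t y)) →
    ∀ G : (Fin m → ℝ) → ℂ, Measurable G → ∫⁻ v in BA 1 m, ‖G v‖ₑ ^ 2 ≠ ∞ →
    (∀ k, k ∉ L → cfA 1 G k = 0) →
    ∫⁻ y, ‖∫ v in BA 1 m, G v * em y t v‖ₑ ^ q ≤
      C * (K : ℝ≥0∞) ^ q * ENNReal.ofReal (|t| ^ (-(m * (q / 2 - 1)))) *
        (∫⁻ v in BA 1 m, ‖G v‖ₑ ^ 2) ^ (q / 2) := by
  classical
  obtain ⟨C1, hC1⟩ := fin_loc m q hq
  have hq0 : 0 < q := by linarith
  refine ⟨C1, ?_⟩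
  intro L t K ht hL G hG h2 hs
  set N : ℝ≥0∞ := ∫⁻ v in BA 1 m, ‖G v‖ₑ ^ 2 with hN
  obtain ⟨hlim, hbes⟩ := fourier_cube 1 one_pos G hG h2
  have hbes' : ∀ F : Finset (Fin m → ℤ), ∑ k ∈ F, ‖cfA 1 G k‖ₑ ^ 2 ≤ N := by
    intro F
    refine le_trans ?_ (hbes F)
    apply le_mul_of_one_le_left' _
    rw [← ENNReal.ofReal_one]
    apply ENNReal.ofReal_le_ofReal
    exact one_le_pow₀ (by norm_num)
  have htp : 0 < |t| := by linarith
  have hw : ENNReal.ofReal (|t| ^ (-(q / 2 - 1))) ^ m =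
      ENNReal.ofReal (|t| ^ (-(m * (q / 2 - 1)))) := by
    rw [← ENNReal.ofReal_pow (by positivity), ← Real.rpow_natCast, ← Real.rpow_mul htp.le]
    congr 2
    ring
  -- a sequence of finite sets
  obtain ⟨Fs, hFs⟩ := Filter.exists_seq_tendsto (atTop : Filter (Finset (Fin m → ℤ)))
  have hlim2 := hlim.comp hFs
  -- the bound of the partial sums
  have hpart : ∀ n : ℕ, ∫⁻ y, ‖∫ v in BA 1 m, tri (Fs n) (izA 1) (cfA 1 G) v * em y t v‖ₑ ^ q ≤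
      C1 * ENNReal.ofReal (|t| ^ (-(q / 2 - 1))) ^ m * ((K : ℝ≥0∞) ^ q * N ^ (q / 2)) := by
    intro n
    have h4 := hC1 (Fin m → ℤ) ((Fs n).filter (· ∈ L)) (izA 1) ((K : ℝ≥0∞) ^ q) t ht (by
      intro y c
      refine le_trans ?_ (hL y (inCell ((Fs n).filter (· ∈ L)) (izA 1) t y) (fun k hk => ?_) c)
      · exact lintegral_mono_set QQ_sub
      · unfold inCell at hk
        rw [Finset.mem_filter, Finset.mem_filter] at hk
        exact ⟨hk.1.2, hk.2⟩) (cfA 1 G)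
    simp only [← tri_filter L (Fs n) (cfA 1 G) hs] at h4
    refine h4.trans ?_
    gcongr
    exact hbes' _
  -- convergence
  have hconv : ∀ y : Fin m → ℝ, Tendsto (fun n => ∫ v in BA 1 m,
      tri (Fs n) (izA 1) (cfA 1 G) v * em y t v) atTop (𝓝 (∫ v in BA 1 m, G v * em y t v)) := by
    intro y
    rw [tendsto_iff_edist_tendsto_0]
    have h5 : ∀ n, edist (∫ v in BA 1 m, tri (Fs n) (izA 1) (cfA 1 G) v * em y t v)
        (∫ v in BA 1 m, G v * em y t v) ≤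
        (∫⁻ v in BA 1 m, ‖G v - tri (Fs n) (izA 1) (cfA 1 G) v‖ₑ ^ 2) ^ (1 / 2 : ℝ) *
          (2 ^ m) ^ (1 / 2 : ℝ) := by
      intro n
      have hti : IntegrableOn (fun v => tri (Fs n) (izA 1) (cfA 1 G) v * em y t v) (BA 1 m) :=
        ((tri_cont _ _ _).mul (em_cont y t)).continuousOn.integrableOn_compact isCompact_Icc
      rw [edist_comm, edist_eq_enorm_sub, ← integral_sub (G_int G hG h2 y t) hti]
      have h6 : ∀ v, G v * em y t v - tri (Fs n) (izA 1) (cfA 1 G) v * em y t v =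
          (G v - tri (Fs n) (izA 1) (cfA 1 G) v) * em y t v := by
        intro v
        ring
      simp only [h6]
      exact sup_cube _ (hG.sub (tri_cont _ _ _).measurable) y t
    have h7 := (ENNReal.continuous_rpow_const (y := (1 / 2 : ℝ))).tendsto 0
    rw [ENNReal.zero_rpow_of_pos (by norm_num)] at h7
    have h8 := ENNReal.Tendsto.mul_const (b := ((2 : ℝ≥0∞) ^ m) ^ (1 / 2 : ℝ)) (h7.comp hlim2)
      (Or.inr (ENNReal.rpow_ne_top_of_nonneg (by norm_num) (ENNReal.pow_ne_top (by norm_num))))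
    rw [zero_mul] at h8
    exact tendsto_of_tendsto_of_tendsto_of_le_of_le tendsto_const_nhds h8 (fun _ => zero_le) h5
  have hmeas : ∀ n, Measurable (fun y : Fin m → ℝ =>
      ‖∫ v in BA 1 m, tri (Fs n) (izA 1) (cfA 1 G) v * em y t v‖ₑ ^ q) := fun n =>
    (cub_meas _ (tri_cont _ _ _).measurable t).enorm.pow_const q
  have hfatou : ∫⁻ y, ‖∫ v in BA 1 m, G v * em y t v‖ₑ ^ q ≤
      liminf (fun n => ∫⁻ y, ‖∫ v in BA 1 m, tri (Fs n) (izA 1) (cfA 1 G) v * em y t v‖ₑ ^ q)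
        atTop := by
    refine le_trans (le_of_eq ?_) (lintegral_liminf_le hmeas)
    congr 1
    ext y
    have h10 := (continuous_enorm.tendsto _).comp (hconv y)
    have h11 := ((ENNReal.continuous_rpow_const (y := q)).tendsto _).comp h10
    exact h11.liminf_eq.symm
  refine hfatou.trans ?_
  have h12 : liminf (fun n => ∫⁻ y, ‖∫ v in BA 1 m, tri (Fs n) (izA 1) (cfA 1 G) v *
      em y t v‖ₑ ^ q) atTop ≤
      C1 * ENNReal.ofReal (|t| ^ (-(q / 2 - 1))) ^ m * ((K : ℝ≥0∞) ^ q * N ^ (q / 2)) := by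
    refine (liminf_le_liminf (Eventually.of_forall hpart)).trans ?_
    simp
  refine h12.trans (le_of_eq ?_)
  rw [hw]
  ring

/-- **sets with few representations**: the interpolated constant -/
lemma LQ_rep2 (q : ℝ) (hq : 2 ≤ q) (hq4 : q ≤ 4) (L : Set (Fin m → ℤ)) (r : ℕ)
    (hr : ∀ n : Fin m → ℤ, {w : (Fin m → ℤ) × (Fin m → ℤ) | w.1 ∈ L ∧ w.2 ∈ L ∧
      w.1 + w.2 = n}.encard ≤ r) (K : ℝ≥0)
    (hK : (2 : ℝ≥0∞) ^ m * (r : ℝ≥0∞) ^ ((q - 2) / 2) ≤ (K : ℝ≥0∞) ^ q) : LQ q K L := by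
  intro F hF c
  have hq0 : 0 < q := by linarith
  set S := ∑ k ∈ F, ‖c k‖ₑ ^ 2 with hS
  have h4 := fourth L r hr F hF c
  have h2 := parseval_cube F c
  have hm2 : Measurable (fun v : Fin m → ℝ => ‖tri F (izA 1) c v‖ₑ ^ 2) :=
    (tri_cont _ _ _).measurable.enorm.pow_const 2
  have h5 := ENNReal.lintegral_mul_norm_pow_le (μ := volume.restrict (BA 1 m))
    hm2.aemeasurable (hm2.pow_const 2).aemeasurable (p := 1 - (q - 2) / 2) (q := (q - 2) / 2)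
    (by linarith) (by linarith) (by ring)
  have h6 : ∀ v, (‖tri F (izA 1) c v‖ₑ ^ 2) ^ (1 - (q - 2) / 2) *
      ((‖tri F (izA 1) c v‖ₑ ^ 2) ^ 2) ^ ((q - 2) / 2) = ‖tri F (izA 1) c v‖ₑ ^ q := by
    intro v
    rw [← pow_mul, ← ENNReal.rpow_natCast, ← ENNReal.rpow_natCast, ← ENNReal.rpow_mul,
      ← ENNReal.rpow_mul, ← ENNReal.rpow_add_of_nonneg _ _ (by push_cast; linarith)
      (by push_cast; linarith)]
    congr 1
    push_cast
    ring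
  simp only [h6] at h5
  refine h5.trans ?_
  have h7 : (∫⁻ v in BA 1 m, ‖tri F (izA 1) c v‖ₑ ^ 2) ^ (1 - (q - 2) / 2) *
      (∫⁻ v in BA 1 m, (‖tri F (izA 1) c v‖ₑ ^ 2) ^ 2) ^ ((q - 2) / 2) ≤
      (2 ^ m * S) ^ (1 - (q - 2) / 2) * (2 ^ m * (r * S ^ 2)) ^ ((q - 2) / 2) := by
    rw [h2]
    gcongr
  refine h7.trans ?_
  have h8 : ((2 : ℝ≥0∞) ^ m * S) ^ (1 - (q - 2) / 2) * (2 ^ m * (r * S ^ 2)) ^ ((q - 2) / 2) =
      2 ^ m * (r : ℝ≥0∞) ^ ((q - 2) / 2) * S ^ (q / 2) := by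
    rw [ENNReal.mul_rpow_of_nonneg _ _ (by linarith), ENNReal.mul_rpow_of_nonneg _ _ (by linarith),
      ENNReal.mul_rpow_of_nonneg _ _ (by linarith)]
    have e1 : (2 ^ m : ℝ≥0∞) ^ (1 - (q - 2) / 2) * (2 ^ m : ℝ≥0∞) ^ ((q - 2) / 2) = 2 ^ m := by
      rw [← ENNReal.rpow_add_of_nonneg _ _ (by linarith) (by linarith)]
      have : 1 - (q - 2) / 2 + (q - 2) / 2 = 1 := by ring
      rw [this, ENNReal.rpow_one]
    have e2 : S ^ (1 - (q - 2) / 2) * (S ^ 2) ^ ((q - 2) / 2) = S ^ (q / 2) := by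
      rw [← ENNReal.rpow_natCast, ← ENNReal.rpow_mul, ← ENNReal.rpow_add_of_nonneg _ _ (by linarith)
        (by push_cast; linarith)]
      congr 1
      push_cast
      ring
    calc (2 ^ m : ℝ≥0∞) ^ (1 - (q - 2) / 2) * S ^ (1 - (q - 2) / 2) *
          ((2 ^ m : ℝ≥0∞) ^ ((q - 2) / 2) * ((r : ℝ≥0∞) ^ ((q - 2) / 2) *
            (S ^ 2) ^ ((q - 2) / 2))) =
        ((2 ^ m : ℝ≥0∞) ^ (1 - (q - 2) / 2) * (2 ^ m : ℝ≥0∞) ^ ((q - 2) / 2)) *
          (r : ℝ≥0∞) ^ ((q - 2) / 2) *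
          (S ^ (1 - (q - 2) / 2) * (S ^ 2) ^ ((q - 2) / 2)) := by ring
      _ = _ := by rw [e1, e2]
  rw [h8]
  gcongr

end Pool.Agent.Q89.AS
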