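import Pool.Agent.Q89.AS.C
set_option autoImplicit false

/-! The integration in time. -/

namespace Pool.Agent.Q89.AS

open MeasureTheory Set Complex Filter Topology
open scoped ENNReal NNReal
open Pool.Agent.Y183.LS

variable {m : ℕ}

/-- the points of `L` in the box with corner `a` and side `R` -/
def inBox (L : Set (Fin m → ℤ)) (R : ℕ) (a : Fin m → ℤ) : Set (Fin m → ℤ) :=
  {k | k ∈ L ∧ ∀ i, a i ≤ k i ∧ k i < a i + R}

lemma LQ.mono {q : ℝ} {K : ℝ≥0} {L L' : Set (Fin m → ℤ)} (h : LQ q K L') (hs : L ⊆ L') :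
    LQ q K L := fun F hF c => h F (fun k hk => hs (hF k hk)) c

lemma cell_sub (L : Set (Fin m → ℤ)) (t : ℝ) (ht : 1 ≤ |t|) (y : Fin m → ℝ) :
    ∃ a : Fin m → ℤ, cellSet L t y ⊆ inBox L ⌈4 * |t|⌉₊ a := by
  have hR : 4 * |t| ≤ (⌈4 * |t|⌉₊ : ℝ) := Nat.le_ceil _
  have hz : ∀ k : Fin m → ℤ, ∀ i, izA 1 k i / (2 * t) = (k i : ℝ) / (4 * t) := by
    intro k i
    unfold izA
    rw [div_div]
    congr 1
    ring
  rcases le_or_gt t 0 with h0 | h0
  · have ht' : t < 0 := by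
      rcases h0.lt_or_eq with h | h
      · exact h
      · rw [h, abs_zero] at ht
        linarith
    rw [abs_of_neg ht'] at hR ⊢
    refine ⟨fun i => ⌊4 * t * (y i + 1)⌋ + 1, ?_⟩
    rintro k ⟨hk, hk2⟩
    refine ⟨hk, fun i => ?_⟩
    obtain ⟨h1, h2⟩ := hk2 i
    rw [hz] at h1 h2
    have ht4 : 4 * t < 0 := by linarith
    rw [le_div_iff_of_neg ht4] at h1
    rw [div_lt_iff_of_neg ht4] at h2
    have h3 := Int.floor_le (4 * t * (y i + 1))
    have h4 := Int.lt_floor_add_one (4 * t * (y i + 1))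
    constructor
    · have h5 : ⌊4 * t * (y i + 1)⌋ < k i := by
        rw [Int.floor_lt]
        linarith
      exact Int.add_one_le_iff.mpr h5
    · have h5 : ((k i : ℤ) : ℝ) < ((⌊4 * t * (y i + 1)⌋ + 1 + (⌈4 * -t⌉₊ : ℤ) : ℤ) : ℝ) := by
        push_cast
        linarith
      exact_mod_cast h5
  · rw [abs_of_pos h0] at hR ⊢
    refine ⟨fun i => ⌈4 * t * y i⌉, ?_⟩
    rintro k ⟨hk, hk2⟩
    refine ⟨hk, fun i => ?_⟩
    obtain ⟨h1, h2⟩ := hk2 i
    rw [hz] at h1 h2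
    have ht4 : 0 < 4 * t := by linarith
    rw [le_div_iff₀ ht4] at h1
    rw [div_lt_iff₀ ht4] at h2
    have h3 := Int.le_ceil (4 * t * y i)
    constructor
    · rw [Int.ceil_le]
      linarith
    · have h5 : ((k i : ℤ) : ℝ) < ((⌈4 * t * y i⌉ + (⌈4 * t⌉₊ : ℤ) : ℤ) : ℝ) := by
        push_cast
        linarith
      exact_mod_cast h5

/-- **the main estimate**, library normalisation -/
theorem mainT (m : ℕ) (q κ : ℝ) (hq : 2 < q) (hκ : 0 ≤ κ) (h : 1 < m * (q / 2 - 1) - κ * q) :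
    ∃ C : ℝ≥0, ∀ (K : ℝ≥0) (L : Set (Fin m → ℤ)),
    (∀ R : ℕ, 1 ≤ R → ∀ a, LQ q (K * (R : ℝ≥0) ^ κ) (inBox L R a)) →
    ∀ G : (Fin m → ℝ) → ℂ, Measurable G → ∫⁻ v in BA 1 m, ‖G v‖ₑ ^ 2 ≠ ∞ →
    (∀ k, k ∉ L → cfA 1 G k = 0) →
    ∫⁻ t : ℝ, ∫⁻ y, ‖∫ v in BA 1 m, G v * em y t v‖ₑ ^ q ≤
      C * (1 + K : ℝ≥0∞) ^ q * (∫⁻ v in BA 1 m, ‖G v‖ₑ ^ 2) ^ (q / 2) := by
  obtain ⟨C1, hC1⟩ := slice_loc m q hq
  set b : ℝ := m * (q / 2 - 1) - κ * q with hb
  have hq0 : 0 < q := by linarith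
  set C0 : ℝ≥0∞ := ((2 : ℝ≥0∞) ^ m) ^ ((q - 2) / 2) with hC0
  have hC0t : C0 ≠ ∞ := ENNReal.rpow_ne_top_of_nonneg (by linarith)
    (ENNReal.pow_ne_top (by norm_num))
  set C2 : ℝ≥0∞ := C1 * ENNReal.ofReal (5 ^ (κ * q)) with hC2
  have hC2t : C2 ≠ ∞ := ENNReal.mul_ne_top ENNReal.coe_ne_top ENNReal.ofReal_ne_top
  set W : ℝ≥0∞ := ∫⁻ t : ℝ, ENNReal.ofReal ((1 + ‖t‖) ^ (-b)) with hW
  have hWt : W ≠ ∞ := by
    have h1 : Integrable (fun t : ℝ => (1 + ‖t‖) ^ (-b)) := by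
      apply integrable_one_add_norm
      simpa using h
    exact h1.lintegral_lt_top.ne
  set D : ℝ≥0∞ := (C0 + C2) * ENNReal.ofReal (2 ^ b) with hD
  have hDt : D ≠ ∞ := ENNReal.mul_ne_top (ENNReal.add_ne_top.mpr ⟨hC0t, hC2t⟩) ENNReal.ofReal_ne_top
  refine ⟨(D * W).toNNReal, ?_⟩
  intro K L hL G hG h2 hs
  rw [ENNReal.coe_toNNReal (ENNReal.mul_ne_top hDt hWt)]
  set N : ℝ≥0∞ := ∫⁻ v in BA 1 m, ‖G v‖ₑ ^ 2 with hN
  have key : ∀ t : ℝ, ∫⁻ y, ‖∫ v in BA 1 m, G v * em y t v‖ₑ ^ q ≤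
      (D * (1 + K : ℝ≥0∞) ^ q * N ^ (q / 2)) * ENNReal.ofReal ((1 + ‖t‖) ^ (-b)) := by
    intro t
    have h1K : (1 : ℝ≥0∞) ≤ (1 + K : ℝ≥0∞) ^ q :=
      ENNReal.one_le_rpow le_self_add hq0
    rcases le_total |t| 1 with ht | ht
    · refine (small q hq.le G hG h2 t).trans ?_
      rw [← hN, ← hC0]
      have hw : 1 ≤ ENNReal.ofReal (2 ^ b) * ENNReal.ofReal ((1 + ‖t‖) ^ (-b)) := by
        rw [← ENNReal.ofReal_mul (by positivity), ← ENNReal.ofReal_one]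
        apply ENNReal.ofReal_le_ofReal
        rw [Real.norm_eq_abs, Real.rpow_neg (by positivity), ← div_eq_mul_inv, le_div_iff₀
          (by positivity), one_mul]
        exact Real.rpow_le_rpow (by positivity) (by linarith) (by linarith)
      calc C0 * N ^ (q / 2) = C0 * 1 * 1 * N ^ (q / 2) := by ring
        _ ≤ (C0 + C2) * (ENNReal.ofReal (2 ^ b) * ENNReal.ofReal ((1 + ‖t‖) ^ (-b))) *
            (1 + K : ℝ≥0∞) ^ q * N ^ (q / 2) := by
            gcongr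
            exact le_self_add
        _ = _ := by
            rw [hD]
            ring
    · have htp : 0 < |t| := by linarith
      set R : ℕ := ⌈4 * |t|⌉₊ with hR
      have hR1 : 1 ≤ R := by
        rw [hR, Nat.one_le_ceil_iff]
        linarith
      have hR5 : (R : ℝ) ≤ 5 * |t| := by
        have := (Nat.ceil_lt_add_one (by linarith : 0 ≤ 4 * |t|)).le
        rw [← hR] at this
        linarith
      have h3 := hC1 L t (K * (R : ℝ≥0) ^ κ) ht (fun y => by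
        obtain ⟨a, ha⟩ := cell_sub L t ht y
        exact LQ.mono (hL R hR1 a) ha) G hG h2 hs
      refine h3.trans ?_
      rw [← hN]
      have h4 : ((K * (R : ℝ≥0) ^ κ : ℝ≥0) : ℝ≥0∞) ^ q ≤
          (1 + K : ℝ≥0∞) ^ q * (ENNReal.ofReal (5 ^ (κ * q)) * ENNReal.ofReal (|t| ^ (κ * q))) := by
        push_cast
        rw [ENNReal.coe_rpow_of_nonneg _ hκ, ENNReal.mul_rpow_of_nonneg _ _ hq0.le,
          ← ENNReal.rpow_mul, ← ENNReal.ofReal_mul (by positivity),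
          ← Real.mul_rpow (by norm_num) htp.le]
        have hKK : (K : ℝ≥0∞) ≤ 1 + K := le_add_self
        gcongr
        rw [← ENNReal.ofReal_rpow_of_nonneg (by positivity) (by positivity)]
        gcongr
        rw [ENNReal.coe_natCast, ← ENNReal.ofReal_natCast]
        exact ENNReal.ofReal_le_ofReal hR5
      have h5 : ENNReal.ofReal (|t| ^ (κ * q)) * ENNReal.ofReal (|t| ^ (-(m * (q / 2 - 1)))) ≤
          ENNReal.ofReal (2 ^ b) * ENNReal.ofReal ((1 + ‖t‖) ^ (-b)) := by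
        rw [← ENNReal.ofReal_mul (by positivity), ← ENNReal.ofReal_mul (by positivity),
          ← Real.rpow_add htp]
        apply ENNReal.ofReal_le_ofReal
        have e3 : κ * q + -(m * (q / 2 - 1)) = -b := by
          rw [hb]
          ring
        rw [e3, Real.norm_eq_abs]
        calc |t| ^ (-b) = 2 ^ b * (2 * |t|) ^ (-b) := by
              rw [Real.mul_rpow (by norm_num) htp.le, ← mul_assoc, ← Real.rpow_add (by norm_num),
                add_neg_cancel, Real.rpow_zero, one_mul]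
          _ ≤ 2 ^ b * (1 + |t|) ^ (-b) := by
              gcongr 2 ^ b * ?_
              exact Real.rpow_le_rpow_of_nonpos (by positivity) (by linarith) (by linarith)
      calc (C1 : ℝ≥0∞) * ((K * (R : ℝ≥0) ^ κ : ℝ≥0) : ℝ≥0∞) ^ q *
            ENNReal.ofReal (|t| ^ (-(m * (q / 2 - 1)))) * N ^ (q / 2) ≤
          C1 * ((1 + K : ℝ≥0∞) ^ q *
            (ENNReal.ofReal (5 ^ (κ * q)) * ENNReal.ofReal (|t| ^ (κ * q)))) *
            ENNReal.ofReal (|t| ^ (-(m * (q / 2 - 1)))) * N ^ (q / 2) := by gcongr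
        _ = (C1 * ENNReal.ofReal (5 ^ (κ * q))) * (1 + K : ℝ≥0∞) ^ q *
            (ENNReal.ofReal (|t| ^ (κ * q)) * ENNReal.ofReal (|t| ^ (-(m * (q / 2 - 1))))) *
            N ^ (q / 2) := by ring
        _ ≤ (C0 + C2) * (1 + K : ℝ≥0∞) ^ q *
            (ENNReal.ofReal (2 ^ b) * ENNReal.ofReal ((1 + ‖t‖) ^ (-b))) * N ^ (q / 2) := by
            gcongr
            exact le_add_self
        _ = _ := by
            rw [hD]
            ring
  refine (lintegral_mono key).trans ?_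
  rw [lintegral_const_mul' _ _ ?_, ← hW]
  · exact le_of_eq (by ring)
  · refine ENNReal.mul_ne_top (ENNReal.mul_ne_top hDt ?_) ?_
    · exact ENNReal.rpow_ne_top_of_nonneg hq0.le (ENNReal.add_ne_top.mpr
        ⟨ENNReal.one_ne_top, ENNReal.coe_ne_top⟩)
    · exact ENNReal.rpow_ne_top_of_nonneg (by positivity) h2

end Pool.Agent.Q89.AS
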