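import Pool.Agent.Q89.AS.D
set_option autoImplicit false

/-! The extension operator on a square of arbitrary position and size. -/

namespace Pool.Agent.Q89.AS

open MeasureTheory Set Complex Filter Topology
open scoped ENNReal NNReal
open Pool.Agent.Y183.LS

variable {m : ℕ}

/-- the extension operator -/
noncomputable def Ext (f : (Fin m → ℝ) → ℂ) (ξ : (Fin m → ℝ) × ℝ) : ℂ :=
  ∫ x : Fin m → ℝ, cexp (-(I * ((∑ i, x i * ξ.1 i + (∑ i, x i ^ 2) * ξ.2 : ℝ) : ℂ))) * f x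

/-- the cube with centre `p` and side `2 l` -/
def Sq (p : Fin m → ℝ) (l : ℝ) : Set (Fin m → ℝ) := Icc (fun i => p i - l) (fun i => p i + l)

/-- the density `1_S exp(is|x|²) g` -/
noncomputable def dens (p : Fin m → ℝ) (l s : ℝ) (g : (Fin m → ℝ) → ℂ) : (Fin m → ℝ) → ℂ :=
  (Sq p l).indicator fun x => cexp (I * ((s * ∑ i, x i ^ 2 : ℝ) : ℂ)) * g x

lemma Sq_meas (p : Fin m → ℝ) (l : ℝ) : MeasurableSet (Sq p l) := measurableSet_Icc

lemma dens_meas (p : Fin m → ℝ) (l s : ℝ) (g : (Fin m → ℝ) → ℂ) (hg : Measurable g) :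
    Measurable (dens p l s g) := by
  unfold dens
  apply Measurable.indicator _ (Sq_meas p l)
  apply Measurable.mul _ hg
  apply Continuous.measurable
  fun_prop

lemma Ext_meas (f : (Fin m → ℝ) → ℂ) (hf : Measurable f) : Measurable (Ext f) := by
  unfold Ext
  have h1 : Measurable (fun w : ((Fin m → ℝ) × ℝ) × (Fin m → ℝ) =>
      cexp (-(I * ((∑ i, w.2 i * w.1.1 i + (∑ i, w.2 i ^ 2) * w.1.2 : ℝ) : ℂ))) * f w.2) := by
    apply Measurable.mul _ (hf.comp measurable_snd)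
    apply Continuous.measurable
    fun_prop
  exact (h1.stronglyMeasurable.integral_prod_right).measurable

lemma mem_Sq (p : Fin m → ℝ) (l : ℝ) (hl : 0 < l) (v : Fin m → ℝ) :
    l • v + p ∈ Sq p l ↔ v ∈ BA 1 m := by
  unfold Sq
  simp only [mem_Icc, Pi.le_def, Pi.add_apply, Pi.smul_apply, smul_eq_mul]
  constructor
  · rintro ⟨h1, h2⟩
    constructor
    · intro i
      have := h1 i
      by_contra hc
      push Not at hc
      nlinarith
    · intro i
      have := h2 i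
      by_contra hc
      push Not at hc
      nlinarith
  · rintro ⟨h1, h2⟩
    constructor
    · intro i
      have := h1 i
      nlinarith
    · intro i
      have := h2 i
      nlinarith

lemma phase (p : Fin m → ℝ) (l s : ℝ) (ξ : (Fin m → ℝ) × ℝ) (v : Fin m → ℝ) :
    cexp (-(I * ((∑ i, (l • v + p) i * ξ.1 i + (∑ i, (l • v + p) i ^ 2) * ξ.2 : ℝ) : ℂ))) *
      cexp (I * ((s * ∑ i, (l • v + p) i ^ 2 : ℝ) : ℂ)) =
    ec (-(∑ i, p i * ξ.1 i + (∑ i, p i ^ 2) * (ξ.2 - s)) / (2 * Real.pi)) *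
      em ((-(l / (2 * Real.pi))) • ξ.1 + (-(l * (ξ.2 - s) / Real.pi)) • p)
        (-(l ^ 2 / (2 * Real.pi)) * (ξ.2 - s)) v := by
  have hpi : Real.pi ≠ 0 := Real.pi_ne_zero
  have hpc : (Real.pi : ℂ) ≠ 0 := by exact_mod_cast hpi
  have hec : ∀ x : ℝ, ec (x / (2 * Real.pi)) = cexp (I * (x : ℂ)) := by
    intro x
    unfold ec
    congr 1
    push_cast
    field_simp
  have h1 : -(∑ i, (l • v + p) i * ξ.1 i + (∑ i, (l • v + p) i ^ 2) * ξ.2) +
      s * ∑ i, (l • v + p) i ^ 2 =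
      -(∑ i, p i * ξ.1 i + (∑ i, p i ^ 2) * (ξ.2 - s)) +
        (2 * Real.pi) * (dt ((-(l / (2 * Real.pi))) • ξ.1 + (-(l * (ξ.2 - s) / Real.pi)) • p) v +
        (-(l ^ 2 / (2 * Real.pi)) * (ξ.2 - s)) * sq2 v) := by
    unfold dt sq2
    simp only [Pi.add_apply, Pi.smul_apply, smul_eq_mul]
    rw [Finset.mul_sum, Finset.sum_mul, Finset.sum_mul, ← Finset.sum_add_distrib,
      ← Finset.sum_add_distrib, ← Finset.sum_neg_distrib, ← Finset.sum_neg_distrib, Finset.mul_sum,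
      ← Finset.sum_add_distrib, ← Finset.sum_add_distrib, Finset.mul_sum, ← Finset.sum_add_distrib]
    apply Finset.sum_congr rfl
    intro i _
    field_simp
    ring
  rw [em_eq, ← ec_add, ← ec_add, ← Complex.exp_add]
  have h2 : -(∑ i, p i * ξ.1 i + (∑ i, p i ^ 2) * (ξ.2 - s)) / (2 * Real.pi) +
      (dt ((-(l / (2 * Real.pi))) • ξ.1 + (-(l * (ξ.2 - s) / Real.pi)) • p) v +
        (-(l ^ 2 / (2 * Real.pi)) * (ξ.2 - s)) * sq2 v) =
      (-(∑ i, (l • v + p) i * ξ.1 i + (∑ i, (l • v + p) i ^ 2) * ξ.2) +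
      s * ∑ i, (l • v + p) i ^ 2) / (2 * Real.pi) := by
    rw [h1]
    field_simp
  rw [h2, hec]
  congr 1
  push_cast
  ring

lemma Ext_dens (p : Fin m → ℝ) (l s : ℝ) (hl : 0 < l) (g : (Fin m → ℝ) → ℂ)
    (ξ : (Fin m → ℝ) × ℝ) :
    ‖Ext (dens p l s g) ξ‖ₑ = ENNReal.ofReal (l ^ m) * ‖∫ v in BA 1 m, g (l • v + p) *
      em ((-(l / (2 * Real.pi))) • ξ.1 + (-(l * (ξ.2 - s) / Real.pi)) • p)
        (-(l ^ 2 / (2 * Real.pi)) * (ξ.2 - s)) v‖ₑ := by
  unfold Ext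
  set h : (Fin m → ℝ) → ℂ := fun x =>
    cexp (-(I * ((∑ i, x i * ξ.1 i + (∑ i, x i ^ 2) * ξ.2 : ℝ) : ℂ))) * dens p l s g x with hh
  have h1 : ∫ x, h x = (l ^ m : ℝ) • ∫ v, h (l • v + p) := by
    rw [← integral_add_right_eq_self h p, int_smul l (fun x => h (x + p)), abs_of_pos hl,
      smul_smul, mul_inv_cancel₀ (by positivity), one_smul]
  have h2 : ∀ v, h (l • v + p) = (BA 1 m).indicator (fun v =>
      ec (-(∑ i, p i * ξ.1 i + (∑ i, p i ^ 2) * (ξ.2 - s)) / (2 * Real.pi)) *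
      (g (l • v + p) * em ((-(l / (2 * Real.pi))) • ξ.1 + (-(l * (ξ.2 - s) / Real.pi)) • p)
        (-(l ^ 2 / (2 * Real.pi)) * (ξ.2 - s)) v)) v := by
    intro v
    rw [hh]
    simp only
    unfold dens
    by_cases hv : v ∈ BA 1 m
    · rw [indicator_of_mem hv, indicator_of_mem ((mem_Sq p l hl v).mpr hv), ← mul_assoc, phase]
      ring
    · rw [indicator_of_notMem hv, indicator_of_notMem (fun hc => hv ((mem_Sq p l hl v).mp hc)),
        mul_zero]
  rw [h1]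
  simp only [h2]
  rw [integral_indicator measurableSet_Icc, integral_const_mul, enorm_smul, enorm_mul, ec_enorm,
    one_mul]
  congr 1
  rw [Real.enorm_eq_ofReal (by positivity)]

lemma lint_affine (r : ℝ) (hr : r ≠ 0) (c : Fin m → ℝ) (g : (Fin m → ℝ) → ℝ≥0∞)
    (hg : Measurable g) :
    ∫⁻ x, g (r • x + c) = (ENNReal.ofReal (|r| ^ m))⁻¹ * ∫⁻ x, g x := by
  have h1 := lint_smul r hr (fun x => g (x + c)) (hg.comp (measurable_id.add_const c))
  rw [lintegral_add_right_eq_self g c] at h1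
  rw [← h1, ← mul_assoc, ENNReal.inv_mul_cancel, one_mul]
  · rw [Ne, ENNReal.ofReal_eq_zero, not_le]
    positivity
  · exact ENNReal.ofReal_ne_top

lemma lint_affine1 (r : ℝ) (hr : r ≠ 0) (s : ℝ) (g : ℝ → ℝ≥0∞) (hg : Measurable g) :
    ∫⁻ x, g (r * (x - s)) = (ENNReal.ofReal |r|)⁻¹ * ∫⁻ x, g x := by
  rw [lintegral_sub_right_eq_self (fun x => g (r * x)) s]
  have h1 : ∫⁻ x, g (r * x) = ∫⁻ x, g x ∂(Measure.map (fun x => r * x) volume) :=
    (lintegral_map hg (measurable_const_mul r)).symm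
  rw [h1, Real.map_volume_mul_left hr, lintegral_smul_measure, smul_eq_mul, abs_inv,
    ENNReal.ofReal_inv_of_pos (by positivity)]

/-- the norm of the extension -/
lemma Ext_norm (p : Fin m → ℝ) (l s : ℝ) (hl : 0 < l) (g : (Fin m → ℝ) → ℂ) (hg : Measurable g)
    (q : ℝ) (hq : 0 < q) :
    ∫⁻ ξ, ‖Ext (dens p l s g) ξ‖ₑ ^ q = ENNReal.ofReal (l ^ m) ^ q *
      ((ENNReal.ofReal |-(l ^ 2 / (2 * Real.pi))|)⁻¹ *
      ((ENNReal.ofReal (|-(l / (2 * Real.pi))| ^ m))⁻¹ *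
        ∫⁻ t : ℝ, ∫⁻ y, ‖∫ v in BA 1 m, g (l • v + p) * em y t v‖ₑ ^ q)) := by
  have hm : Measurable (fun ξ : (Fin m → ℝ) × ℝ => ‖Ext (dens p l s g) ξ‖ₑ ^ q) :=
    (Ext_meas _ (dens_meas p l s g hg)).enorm.pow_const q
  have hG : Measurable (fun v => g (l • v + p)) :=
    hg.comp ((measurable_const_smul l).add_const p)
  have hr : -(l / (2 * Real.pi)) ≠ 0 := by
    have := Real.pi_pos
    have : 0 < l / (2 * Real.pi) := by positivity
    linarith
  have hr2 : -(l ^ 2 / (2 * Real.pi)) ≠ 0 := by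
    have := Real.pi_pos
    have : 0 < l ^ 2 / (2 * Real.pi) := by positivity
    linarith
  rw [Measure.volume_eq_prod, lintegral_prod_symm _ hm.aemeasurable]
  have h1 : ∀ τ : ℝ, ∫⁻ x : Fin m → ℝ, ‖Ext (dens p l s g) (x, τ)‖ₑ ^ q =
      ENNReal.ofReal (l ^ m) ^ q * ((ENNReal.ofReal (|-(l / (2 * Real.pi))| ^ m))⁻¹ *
        ∫⁻ y, ‖∫ v in BA 1 m, g (l • v + p) *
          em y (-(l ^ 2 / (2 * Real.pi)) * (τ - s)) v‖ₑ ^ q) := by
    intro τ
    have h2 : ∀ x : Fin m → ℝ, ‖Ext (dens p l s g) (x, τ)‖ₑ ^ q = ENNReal.ofReal (l ^ m) ^ q *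
        ‖∫ v in BA 1 m, g (l • v + p) *
          em ((-(l / (2 * Real.pi))) • x + (-(l * (τ - s) / Real.pi)) • p)
          (-(l ^ 2 / (2 * Real.pi)) * (τ - s)) v‖ₑ ^ q := by
      intro x
      rw [Ext_dens p l s hl g (x, τ), ENNReal.mul_rpow_of_nonneg _ _ hq.le]
    simp only [h2]
    rw [lintegral_const_mul' _ _ (ENNReal.rpow_ne_top_of_nonneg hq.le ENNReal.ofReal_ne_top)]
    congr 1
    exact lint_affine _ hr _ (fun y => ‖∫ v in BA 1 m, g (l • v + p) *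
      em y (-(l ^ 2 / (2 * Real.pi)) * (τ - s)) v‖ₑ ^ q) ((cub_meas _ hG _).enorm.pow_const q)
  simp only [h1]
  have hjm : Measurable (fun w : (Fin m → ℝ) × ℝ =>
      ‖∫ v in BA 1 m, g (l • v + p) * em w.1 w.2 v‖ₑ ^ q) := by
    have h3 : Measurable (fun w : ((Fin m → ℝ) × ℝ) × (Fin m → ℝ) =>
        g (l • w.2 + p) * em w.1.1 w.1.2 w.2) := by
      apply Measurable.mul (hG.comp measurable_snd)
      simp only [em_eq]
      unfold dt sq2 ec
      apply Continuous.measurable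
      fun_prop
    have h4 := (h3.stronglyMeasurable.integral_prod_right'
      (ν := (volume : Measure (Fin m → ℝ)).restrict (BA 1 m))).measurable
    exact h4.enorm.pow_const q
  have hΦ : Measurable (fun t : ℝ => ∫⁻ y, ‖∫ v in BA 1 m, g (l • v + p) * em y t v‖ₑ ^ q) :=
    Measurable.lintegral_prod_left' hjm
  rw [lintegral_const_mul' _ _ (ENNReal.rpow_ne_top_of_nonneg hq.le ENNReal.ofReal_ne_top),
    lintegral_const_mul' _ _ ?_]
  · rw [lint_affine1 _ hr2 s _ hΦ]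
    ring
  · rw [Ne, ENNReal.inv_eq_top, ENNReal.ofReal_eq_zero, not_le]
    positivity

end Pool.Agent.Q89.AS
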