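import Pool.Agent.Q89.AS.E
set_option autoImplicit false

/-! The estimate in the normalisation of the problem, for densities in `L²` of a cube. -/

namespace Pool.Agent.Q89.AS

open MeasureTheory Set Complex Filter Topology
open scoped ENNReal NNReal
open Pool.Agent.Y183.LS

variable {m : ℕ}

/-- the exponential of period `2l` with frequency `-k` -/
noncomputable def wv (l : ℝ) (k : Fin m → ℤ) (x : Fin m → ℝ) : ℂ :=
  cexp (-(I * ((Real.pi / l * ∑ i, (k i : ℝ) * x i : ℝ) : ℂ)))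

lemma wv_affine (l : ℝ) (hl : 0 < l) (k : Fin m → ℤ) (p v : Fin m → ℝ) :
    wv l k (l • v + p) = wv l k p * ec (-dt (izA 1 k) v) := by
  unfold wv ec dt izA
  rw [← Complex.exp_add]
  congr 1
  simp only [Pi.add_apply, Pi.smul_apply, smul_eq_mul]
  have h1 : Real.pi / l * ∑ i, (k i : ℝ) * (l * v i + p i) =
      Real.pi / l * ∑ i, (k i : ℝ) * p i + 2 * Real.pi * ∑ i, (k i : ℝ) / (2 * 1) * v i := by
    rw [Finset.mul_sum, Finset.mul_sum, Finset.mul_sum, ← Finset.sum_add_distrib]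
    apply Finset.sum_congr rfl
    intro i _
    field_simp
    ring
  rw [h1]
  push_cast
  ring

lemma ind_affine {E : Type*} [Zero E] (p : Fin m → ℝ) (l : ℝ) (hl : 0 < l) (h : (Fin m → ℝ) → E)
    (v : Fin m → ℝ) : (Sq p l).indicator h (l • v + p) =
      (BA 1 m).indicator (fun v => h (l • v + p)) v := by
  by_cases hv : v ∈ BA 1 m
  · rw [indicator_of_mem hv, indicator_of_mem ((mem_Sq p l hl v).mpr hv)]
  · rw [indicator_of_notMem hv, indicator_of_notMem (fun hc => hv ((mem_Sq p l hl v).mp hc))]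

lemma set_affine (p : Fin m → ℝ) (l : ℝ) (hl : 0 < l) (h : (Fin m → ℝ) → ℂ) :
    ∫ x in Sq p l, h x = (l ^ m : ℝ) • ∫ v in BA 1 m, h (l • v + p) := by
  have h1 : ∫ x, (Sq p l).indicator h x = (l ^ m : ℝ) • ∫ v, (Sq p l).indicator h (l • v + p) := by
    rw [← integral_add_right_eq_self ((Sq p l).indicator h) p,
      int_smul l (fun x => (Sq p l).indicator h (x + p)), abs_of_pos hl,
      smul_smul, mul_inv_cancel₀ (by positivity), one_smul]
  rw [← integral_indicator (Sq_meas p l), h1, ← integral_indicator measurableSet_Icc]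
  congr 2
  ext v
  exact ind_affine p l hl h v

lemma set_lint (p : Fin m → ℝ) (l : ℝ) (hl : 0 < l) (h : (Fin m → ℝ) → ℝ≥0∞) (hh : Measurable h) :
    ∫⁻ v in BA 1 m, h (l • v + p) = (ENNReal.ofReal (l ^ m))⁻¹ * ∫⁻ x in Sq p l, h x := by
  have h1 := lint_affine l hl.ne' p ((Sq p l).indicator h) (hh.indicator (Sq_meas p l))
  rw [abs_of_pos hl, lintegral_indicator (Sq_meas p l)] at h1
  rw [← h1, ← lintegral_indicator measurableSet_Icc]
  congr 1
  ext v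
  exact (ind_affine p l hl h v).symm

/-- the spectrum -/
lemma coef_zero (p : Fin m → ℝ) (l : ℝ) (hl : 0 < l) (g : (Fin m → ℝ) → ℂ) (k : Fin m → ℤ)
    (h : ∫ x in Sq p l, g x * wv l k x = 0) : cfA 1 (fun v => g (l • v + p)) k = 0 := by
  rw [set_affine p l hl] at h
  simp only [wv_affine l hl k p] at h
  have h2 : ∫ v in BA 1 m, g (l • v + p) * (wv l k p * ec (-dt (izA 1 k) v)) =
      wv l k p * ∫ v in BA 1 m, ec (-dt (izA 1 k) v) * g (l • v + p) := by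
    rw [← integral_const_mul]
    congr 1
    ext v
    ring
  rw [h2] at h
  have h3 : wv l k p ≠ 0 := Complex.exp_ne_zero _
  have h4 : (l ^ m : ℝ) ≠ 0 := by positivity
  rcases smul_eq_zero.mp h with h5 | h5
  · exact absurd h5 h4
  · rcases mul_eq_zero.mp h5 with h6 | h6
    · exact absurd h6 h3
    · unfold cfA
      rw [h6, smul_zero]

lemma pows (m : ℕ) (q l : ℝ) (hq : 0 < q) (hl : 0 < l) :
    ENNReal.ofReal (l ^ m) ^ q * ((ENNReal.ofReal |-(l ^ 2 / (2 * Real.pi))|)⁻¹ *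
      ((ENNReal.ofReal (|-(l / (2 * Real.pi))| ^ m))⁻¹ *
        ((ENNReal.ofReal (l ^ m))⁻¹) ^ (q / 2))) =
    ENNReal.ofReal ((2 * Real.pi) ^ (m + 1)) *
      ENNReal.ofReal (l ^ ((m : ℝ) / 2 - (m + 2) / q)) ^ q := by
  have hpi := Real.pi_pos
  rw [abs_neg, abs_neg, abs_of_pos (by positivity), abs_of_pos (by positivity),
    ← ENNReal.ofReal_inv_of_pos (by positivity), ← ENNReal.ofReal_inv_of_pos (by positivity),
    ← ENNReal.ofReal_inv_of_pos (by positivity), ENNReal.ofReal_rpow_of_nonneg (by positivity) hq.le,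
    ENNReal.ofReal_rpow_of_nonneg (by positivity) (by positivity),
    ENNReal.ofReal_rpow_of_nonneg (by positivity) hq.le, ← ENNReal.ofReal_mul (by positivity),
    ← ENNReal.ofReal_mul (by positivity), ← ENNReal.ofReal_mul (by positivity),
    ← ENNReal.ofReal_mul (by positivity)]
  congr 1
  have e1 : (l ^ m) ^ q = l ^ ((m : ℝ) * q) := by
    rw [← Real.rpow_natCast, ← Real.rpow_mul hl.le]
  have e2 : ((l ^ m)⁻¹) ^ (q / 2) = l ^ (-((m : ℝ) * (q / 2))) := by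
    rw [← Real.rpow_natCast, ← Real.rpow_neg hl.le, ← Real.rpow_mul hl.le]
    congr 1
    ring
  have e3 : (l ^ 2 / (2 * Real.pi))⁻¹ = (2 * Real.pi) * l ^ (-(2 : ℝ)) := by
    rw [Real.rpow_neg hl.le, Real.rpow_ofNat]
    field_simp
  have e4 : ((l / (2 * Real.pi)) ^ m)⁻¹ = (2 * Real.pi) ^ m * l ^ (-(m : ℝ)) := by
    rw [Real.rpow_neg hl.le, Real.rpow_natCast, div_pow]
    field_simp
  have e5 : (l ^ ((m : ℝ) / 2 - (m + 2) / q)) ^ q =
      l ^ ((m : ℝ) * q) * l ^ (-(2 : ℝ)) * l ^ (-(m : ℝ)) * l ^ (-((m : ℝ) * (q / 2))) := by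
    rw [← Real.rpow_mul hl.le, ← Real.rpow_add hl, ← Real.rpow_add hl, ← Real.rpow_add hl]
    congr 1
    field_simp
    ring
  rw [e1, e2, e3, e4, e5]
  ring

/-- **the main estimate** -/
theorem mainP (m : ℕ) (q κ : ℝ) (hq : 2 < q) (hκ : 0 ≤ κ) (h : 1 < m * (q / 2 - 1) - κ * q) :
    ∃ C : ℝ≥0, ∀ (K : ℝ≥0) (L : Set (Fin m → ℤ)),
    (∀ R : ℕ, 1 ≤ R → ∀ a, LQ q (K * (R : ℝ≥0) ^ κ) (inBox L R a)) →
    ∀ (p : Fin m → ℝ) (l s : ℝ) (g : (Fin m → ℝ) → ℂ), 0 < l →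
    MemLp g 2 (volume.restrict (Sq p l)) →
    (∀ k, k ∉ L → ∫ x in Sq p l, g x * wv l k x = 0) →
    eLpNorm (Ext (dens p l s g)) (ENNReal.ofReal q) volume ≤
      C * (1 + K) * ENNReal.ofReal (l ^ ((m : ℝ) / 2 - (m + 2) / q)) *
        eLpNorm g 2 (volume.restrict (Sq p l)) := by
  obtain ⟨C, hC⟩ := mainT m q κ hq hκ h
  have hq0 : 0 < q := by linarith
  set D : ℝ≥0∞ := (ENNReal.ofReal ((2 * Real.pi) ^ (m + 1)) * C) ^ (1 / q) with hD
  have hDt : D ≠ ∞ := ENNReal.rpow_ne_top_of_nonneg (by positivity)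
    (ENNReal.mul_ne_top ENNReal.ofReal_ne_top ENNReal.coe_ne_top)
  refine ⟨D.toNNReal, ?_⟩
  intro K L hL p l s g hl hg hs
  rw [ENNReal.coe_toNNReal hDt]
  -- a measurable representative
  set g' : (Fin m → ℝ) → ℂ := hg.aestronglyMeasurable.mk g with hg'
  have hgm : Measurable g' := hg.aestronglyMeasurable.stronglyMeasurable_mk.measurable
  have hae : g =ᵐ[volume.restrict (Sq p l)] g' := hg.aestronglyMeasurable.ae_eq_mk
  have hae2 : ∀ᵐ x, x ∈ Sq p l → g x = g' x := (ae_restrict_iff' (Sq_meas p l)).mp hae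
  have h1 : Ext (dens p l s g) = Ext (dens p l s g') := by
    ext ξ
    unfold Ext
    apply integral_congr_ae
    filter_upwards [hae2] with x hx
    unfold dens
    by_cases hxS : x ∈ Sq p l
    · rw [indicator_of_mem hxS, indicator_of_mem hxS, hx hxS]
    · rw [indicator_of_notMem hxS, indicator_of_notMem hxS]
  have h2 : ∀ k, k ∉ L → ∫ x in Sq p l, g' x * wv l k x = 0 := by
    intro k hk
    rw [← hs k hk]
    apply integral_congr_ae
    filter_upwards [hae] with x hx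
    rw [hx]
  have h3 : eLpNorm g 2 (volume.restrict (Sq p l)) = eLpNorm g' 2 (volume.restrict (Sq p l)) :=
    eLpNorm_congr_ae hae
  have h4 : eLpNorm g' 2 (volume.restrict (Sq p l)) =
      (∫⁻ x in Sq p l, ‖g' x‖ₑ ^ 2) ^ (1 / 2 : ℝ) := by
    rw [eLpNorm_eq_lintegral_rpow_enorm_toReal (by norm_num) (by norm_num)]
    simp only [ENNReal.toReal_ofNat, ENNReal.rpow_ofNat]
  set B : ℝ≥0∞ := ∫⁻ x in Sq p l, ‖g' x‖ₑ ^ 2 with hB
  have hBt : B ≠ ∞ := by
    intro hc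
    have h5 := hg.eLpNorm_lt_top
    rw [h3, h4, hc, ENNReal.top_rpow_of_pos (by norm_num)] at h5
    exact lt_irrefl _ h5
  have hGm : Measurable (fun v => g' (l • v + p)) := hgm.comp ((measurable_const_smul l).add_const p)
  have h5 : ∫⁻ v in BA 1 m, ‖g' (l • v + p)‖ₑ ^ 2 = (ENNReal.ofReal (l ^ m))⁻¹ * B :=
    set_lint p l hl (fun x => ‖g' x‖ₑ ^ 2) (hgm.enorm.pow_const 2)
  have hlm : (ENNReal.ofReal (l ^ m))⁻¹ ≠ ∞ := by
    rw [Ne, ENNReal.inv_eq_top, ENNReal.ofReal_eq_zero, not_le]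
    positivity
  have h6 := hC K L hL (fun v => g' (l • v + p)) hGm (by
    rw [h5]
    exact ENNReal.mul_ne_top hlm hBt) (fun k hk => coef_zero p l hl g' k (h2 k hk))
  rw [h5, ENNReal.mul_rpow_of_nonneg _ _ (by positivity)] at h6
  rw [h3, h4, h1]
  rw [← ENNReal.rpow_le_rpow_iff hq0, ← lint_eLp _ q hq0, Ext_norm p l s hl g' hgm q hq0]
  have h7 := pows m q l hq0 hl
  calc ENNReal.ofReal (l ^ m) ^ q * ((ENNReal.ofReal |-(l ^ 2 / (2 * Real.pi))|)⁻¹ *
      ((ENNReal.ofReal (|-(l / (2 * Real.pi))| ^ m))⁻¹ *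
        ∫⁻ t : ℝ, ∫⁻ y, ‖∫ v in BA 1 m, g' (l • v + p) * em y t v‖ₑ ^ q)) ≤
      ENNReal.ofReal (l ^ m) ^ q * ((ENNReal.ofReal |-(l ^ 2 / (2 * Real.pi))|)⁻¹ *
      ((ENNReal.ofReal (|-(l / (2 * Real.pi))| ^ m))⁻¹ *
        (C * (1 + K : ℝ≥0∞) ^ q * (((ENNReal.ofReal (l ^ m))⁻¹) ^ (q / 2) * B ^ (q / 2))))) := by
        gcongr
    _ = (ENNReal.ofReal (l ^ m) ^ q * ((ENNReal.ofReal |-(l ^ 2 / (2 * Real.pi))|)⁻¹ *
      ((ENNReal.ofReal (|-(l / (2 * Real.pi))| ^ m))⁻¹ *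
        ((ENNReal.ofReal (l ^ m))⁻¹) ^ (q / 2)))) * (C * (1 + K : ℝ≥0∞) ^ q * B ^ (q / 2)) := by
        ring
    _ = (ENNReal.ofReal ((2 * Real.pi) ^ (m + 1)) * C) * (1 + K : ℝ≥0∞) ^ q *
        ENNReal.ofReal (l ^ ((m : ℝ) / 2 - (m + 2) / q)) ^ q * B ^ (q / 2) := by
        rw [h7]
        ring
    _ = _ := by
        rw [ENNReal.mul_rpow_of_nonneg _ _ hq0.le, ENNReal.mul_rpow_of_nonneg _ _ hq0.le,
          ENNReal.mul_rpow_of_nonneg _ _ hq0.le, hD, ← ENNReal.rpow_mul, one_div_mul_cancel hq0.ne',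
          ENNReal.rpow_one, ← ENNReal.rpow_mul]
        congr 2
        ring

end Pool.Agent.Q89.AS
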